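import Pool.Agent.Q109.AC.Typ
import Pool.Agent.Q6.HP.Cliques

/-!
# Classes of graphs with partitions (after helper6 and helper129)

The theorems of `Pool.Agent.Q6.HP` and `Pool.Agent.Q129.AAC`, with a weaker assumption on the
property `P`.
-/

set_option autoImplicit false
set_option maxHeartbeats 400000

namespace Pool.Agent.Q109.AC

section

open Finset Filter Pool.Agent.Q129.AAC

/-- A property of almost all graphs between any two graphs with large uncertainty holds for almost
all graphs whose vertices can be partitioned into `r` parts, those of `S` cliques and the others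
independent, uniformly for all `r ≤ n ^ (1 / 6)` and all `S`. -/
theorem almost_all_r (P : ∀ n : ℕ, SimpleGraph (Fin n) → Prop)
    (hP : Typ P)
    (δ : ℝ) (hδ : 0 < δ) :
    ∃ N : ℕ, ∀ n : ℕ, N ≤ n → ∀ r : ℕ, 2 ≤ r → r ^ 6 ≤ n → ∀ S : Set (Fin r),
      ({G : SimpleGraph (Fin n) | (∃ f : Fin n → Fin r, ∀ u v, u ≠ v → f u = f v →
        (G.Adj u v ↔ f u ∈ S)) ∧ ¬ P n G}.ncard : ℝ) ≤
        δ * {G : SimpleGraph (Fin n) | ∃ f : Fin n → Fin r, ∀ u v, u ≠ v → f u = f v →
          (G.Adj u v ↔ f u ∈ S)}.ncard := by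
  set ε : ℝ := δ / 8 with hε
  have hεpos : 0 < ε := by positivity
  obtain ⟨N1, hN1⟩ := hP (1 / 8) ε (by norm_num) hεpos
  obtain ⟨N2, hN2⟩ := params
  have ht : Tendsto (fun n : ℕ => ((1 : ℝ) / 2) ^ n) atTop (nhds 0) :=
    tendsto_pow_atTop_nhds_zero_of_lt_one (by norm_num) (by norm_num)
  obtain ⟨N3, hN3⟩ := eventually_atTop.1 (ht.eventually (gt_mem_nhds hεpos))
  refine ⟨max N1 (max N2 N3), fun n hn r hr hr6 S => ?_⟩
  have h1 := hN1 n ((le_max_left _ _).trans hn)
  obtain ⟨h2, h3, h4, h5, h6, h7, h8⟩ :=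
    hN2 n ((le_max_left _ _).trans ((le_max_right _ _).trans hn)) r hr hr6
  have h9 := (hN3 n ((le_max_right _ _).trans ((le_max_right _ _).trans hn))).le
  have hbal : Bal (n / (2 * r ^ 2)) (res (by omega : 0 < r) : Fin n → Fin r) := by
    by_contra hcon
    have h7 := h6 _ hcon
    have h8 : 0 < (2 * r + 1) * n := by positivity
    omega
  have key := class_bound (n / (2 * r ^ 2)) h2 (by omega) h3 S (P n) ε ?_ h4 h5
    (res (by omega : 0 < r)) hbal ?_
  · have e1 : 8 * ε = δ := by
      rw [hε]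
      ring
    rw [e1] at key
    exact key
  · intro f hf
    have e1 : {G : SimpleGraph (Fin n) | Compat S f G ∧ ¬ P n G} =
        {G | FG S f ≤ G ∧ G ≤ BG S f ∧ ¬ P n G} := by
      ext G
      simp only [Set.mem_ofPred_eq, compat_iff, and_assoc]
    have e2 : {G : SimpleGraph (Fin n) | Compat S f G} = {G | FG S f ≤ G ∧ G ≤ BG S f} := by
      ext G
      exact compat_iff S f G
    rw [e1, e2]
    apply h1 _ _ (FG_le_BG S f)
    intro v
    have h10 := nbr_diff S f v (r * (n / (2 * r ^ 2))) hf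
    have h11 : (((FG S f).neighborSet v).ncard : ℝ) +
        (((r - 1) * (r * (n / (2 * r ^ 2))) : ℕ) : ℝ) ≤ (((BG S f).neighborSet v).ncard : ℝ) := by
      exact_mod_cast h10
    linarith
  · intro f hf
    have h7 := h6 f hf
    calc (r : ℝ) ^ n * ((r : ℝ) ^ n * 2 ^ (crs f).card)
        ≤ 2 ^ (r * n) * (2 ^ (r * n) * 2 ^ (crs f).card) := by
          apply mul_le_mul (pow_le_two_pow r n) _ (by positivity) (by positivity)
          exact mul_le_mul_of_nonneg_right (pow_le_two_pow r n) (by positivity)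
      _ = (1 / 2) ^ n * 2 ^ ((crs f).card + (2 * r + 1) * n) := by
          have e3 : (crs f).card + (2 * r + 1) * n = n + (r * n + (r * n + (crs f).card)) := by
            ring
          have e4 : ((1 : ℝ) / 2) ^ n * 2 ^ n = 1 := by
            rw [← mul_pow]
            norm_num
          rw [e3, pow_add 2 n, pow_add 2 (r * n), pow_add 2 (r * n), ← mul_assoc ((1 / 2) ^ n),
            e4, one_mul]
      _ ≤ (1 / 2) ^ n * 2 ^ (crs (res (by omega : 0 < r) : Fin n → Fin r)).card :=
          mul_le_mul_of_nonneg_left (pow_le_pow_right₀ (by norm_num) h7) (by positivity)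
      _ ≤ ε * 2 ^ (crs (res (by omega : 0 < r) : Fin n → Fin r)).card :=
          mul_le_mul_of_nonneg_right h9 (by positivity)

end

section

open Finset Filter Pool.Agent.Q6.HP
open Pool.Agent.Q129.AAC hiding almost_all

/-- A property of almost all graphs between any two graphs with large uncertainty holds for almost
all graphs whose vertices can be partitioned into `r` parts which induce members of given
hereditary classes with few one vertex extensions. -/
theorem almost_all (P : ∀ n : ℕ, SimpleGraph (Fin n) → Prop)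
    (hP : Typ P)
    (e : ℕ → ℕ) (he : Subexp e) (r : ℕ) (hr : 2 ≤ r) (δ : ℝ) (hδ : 0 < δ) :
    ∃ N : ℕ, ∀ n : ℕ, N ≤ n → ∀ Φ : Fin r → (m : ℕ) → Set (SimpleGraph (Fin m)),
      (∀ i, Hereditary (Φ i)) → (∀ i m, (Φ i m).Nonempty) → (∀ i, FewExt e (Φ i)) →
      ({G : SimpleGraph (Fin n) | (∃ f : Fin n → Fin r, Parts Φ f G) ∧ ¬ P n G}.ncard : ℝ) ≤
        δ * {G : SimpleGraph (Fin n) | ∃ f : Fin n → Fin r, Parts Φ f G}.ncard := by
  classical
  set D : ℝ := 1 + 3 * (r : ℝ) ^ r with hD
  have hD0 : 0 < D := by positivity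
  set ε : ℝ := δ / (2 * D) with hε
  have hεpos : 0 < ε := by positivity
  obtain ⟨N1, hN1⟩ := hP (1 / 8) ε (by norm_num) hεpos
  obtain ⟨N2, hN2⟩ := params e he r hr ε hεpos
  refine ⟨max N1 N2, fun n hn Φ hΦ hne hext => ?_⟩
  have h1 := hN1 n ((le_max_left _ _).trans hn)
  obtain ⟨E, x, hE, hx, heE, hex, hA, hB, hunb, hres, hdeg, hn1⟩ :=
    hN2 n ((le_max_right _ _).trans hn)
  set m := n / (2 * r ^ 2) with hm
  have hfin : ∀ (Q : SimpleGraph (Fin n) → Prop) [DecidablePred Q],
      {G : SimpleGraph (Fin n) | Q G}.ncard =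
        (univ.filter (fun G : SimpleGraph (Fin n) => Q G)).card := by
    intro Q _
    rw [← Set.ncard_coe_finset]
    congr 1
    ext G
    simp
  have hrn : (0 : ℝ) < (r : ℝ) ^ n := by
    have : (0 : ℝ) < r := by
      have : 0 < r := by omega
      exact_mod_cast this
    positivity
  have key := second_moment (fun (f : Fin n → Fin r) (G : SimpleGraph (Fin n)) => Parts Φ f G)
    (P n) (univ.filter (fun f => Bal m f)) D ε hεpos.le hD0.le ?_ ?_ ?_
  · rw [hfin, hfin]
    refine key.trans (le_of_eq ?_)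
    rw [hε]
    field_simp
  · intro f hf
    have hf' : Bal m f := by simpa using hf
    refine (total Φ hΦ e hext E hE heE x hx m hex f hf').trans ?_
    apply mul_le_mul_of_nonneg_left _ (Nat.cast_nonneg _)
    rw [hD]
    have h2 : (0 : ℝ) ≤ (r : ℝ) ^ r := by positivity
    nlinarith
  · intro f hf
    have hf' : Bal m f := by simpa using hf
    apply bad_parts
    intro G0
    have e1 : {G : SimpleGraph (Fin n) | FI f G0 ≤ G ∧ G ≤ BI f G0 ∧ ¬ P n G} =
        {G | Agree f G0 G ∧ ¬ P n G} := by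
      ext G
      simp only [Set.mem_ofPred_eq, agree_iff, and_assoc]
    have e2 : {G : SimpleGraph (Fin n) | FI f G0 ≤ G ∧ G ≤ BI f G0} = {G | Agree f G0 G} := by
      ext G
      exact (agree_iff f G0 G).symm
    have h2 := h1 (FI f G0) (BI f G0) (FI_le_BI f G0) (fun v => ?_)
    · rw [e1, e2, hfin, hfin] at h2
      exact h2
    · have h10 := nbr_diff' f G0 v (r * m) hf'
      have h11 : (((FI f G0).neighborSet v).ncard : ℝ) +
          (((r - 1) * (r * m) : ℕ) : ℝ) ≤ (((BI f G0).neighborSet v).ncard : ℝ) := by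
        exact_mod_cast h10
      linarith
  · intro s hs
    have h2 : ∀ f ∈ s,
        ((univ.filter (fun G : SimpleGraph (Fin n) => Parts Φ f G)).card : ℝ) ≤
          ε * 2 ^ (crs (res (by omega : 0 < r) : Fin n → Fin r)).card / (r : ℝ) ^ n := by
      intro f hf
      have hf' : ¬ Bal m f := by simpa using hs f hf
      rw [le_div_iff₀ hrn]
      have h3 := card_parts_le Φ hΦ e hext E hE heE f
      have h4 := hunb f hf'
      have h5 := mul_le_mul_of_nonneg_right h3 hrn.le
      linarith
    refine (Finset.sum_le_sum h2).trans ?_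
    rw [Finset.sum_const, nsmul_eq_mul]
    have h5 : (s.card : ℝ) ≤ (r : ℝ) ^ n := by
      have h5 := Finset.card_le_univ s
      rw [Fintype.card_fun, Fintype.card_fin, Fintype.card_fin] at h5
      exact_mod_cast h5
    have h6 : (0 : ℝ) ≤
        ε * 2 ^ (crs (res (by omega : 0 < r) : Fin n → Fin r)).card / (r : ℝ) ^ n := by
      positivity
    refine (mul_le_mul_of_nonneg_right h5 h6).trans ?_
    rw [mul_div_cancel₀ _ hrn.ne']
    apply mul_le_mul_of_nonneg_left _ hεpos.le
    refine (two_pow_le_card_parts Φ hΦ hne (res (by omega : 0 < r))).trans ?_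
    exact Finset.single_le_sum (f := fun f : Fin n → Fin r =>
      ((univ.filter (fun G : SimpleGraph (Fin n) => Parts Φ f G)).card : ℝ))
      (fun _ _ => Nat.cast_nonneg _) (by simp [hres])

theorem defective (P : ∀ n : ℕ, SimpleGraph (Fin n) → Prop) (hP : Typ P) (D r : ℕ)
    (hr : 2 ≤ r) (δ : ℝ) (hδ : 0 < δ) :
    ∃ N : ℕ, ∀ n : ℕ, N ≤ n → ∀ S : Set (Fin r),
      ({G : SimpleGraph (Fin n) | Defective D S G ∧ ¬ P n G}.ncard : ℝ) ≤
        δ * {G : SimpleGraph (Fin n) | Defective D S G}.ncard := by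
  classical
  obtain ⟨N, hN⟩ := almost_all P hP _ (subexp_poly D) r hr δ hδ
  refine ⟨N, fun n hn S => ?_⟩
  have h1 := hN n hn (defC D S) (by
      intro i
      unfold defC
      split_ifs with h
      · exact hereditary_co (hereditary_smallDeg D)
      · exact hereditary_smallDeg D) (by
      intro i m
      unfold defC
      split_ifs with h
      · exact nonempty_co (nonempty_smallDeg D) m
      · exact nonempty_smallDeg D m) (by
      intro i
      unfold defC
      split_ifs with h
      · exact fewExt_co (fewExt_smallDeg D)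
      · exact fewExt_smallDeg D)
  simp only [parts_defC] at h1
  exact h1

theorem gen_split (P : ∀ n : ℕ, SimpleGraph (Fin n) → Prop) (hP : Typ P) (δ : ℝ)
    (hδ : 0 < δ) :
    ∃ N : ℕ, ∀ n : ℕ, N ≤ n →
      ({G : SimpleGraph (Fin n) | (Unipolar G ∨ Unipolar Gᶜ) ∧ ¬ P n G}.ncard : ℝ) ≤
        δ * {G : SimpleGraph (Fin n) | Unipolar G ∨ Unipolar Gᶜ}.ncard := by
  classical
  have h0 : FewExt (fun m => m + 1) (SmallDeg 0) :=
    FewExt.mono (fun m => by simp) (fewExt_smallDeg 0)
  obtain ⟨N, hN⟩ := almost_all P hP _ subexp_succ 2 le_rfl (δ / 2) (by linarith)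
  refine ⟨N, fun n hn => ?_⟩
  have h1 := hN n hn uniC (by
      intro i
      unfold uniC
      split_ifs with h
      · exact hereditary_co (hereditary_smallDeg 0)
      · exact hereditary_clusters) (by
      intro i m
      unfold uniC
      split_ifs with h
      · exact nonempty_co (nonempty_smallDeg 0) m
      · exact nonempty_clusters m) (by
      intro i
      unfold uniC
      split_ifs with h
      · exact fewExt_co h0
      · exact fewExt_clusters)
  have h2 := hN n hn uniC' (by
      intro i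
      unfold uniC'
      split_ifs with h
      · exact hereditary_smallDeg 0
      · exact hereditary_co hereditary_clusters) (by
      intro i m
      unfold uniC'
      split_ifs with h
      · exact nonempty_smallDeg 0 m
      · exact nonempty_co nonempty_clusters m) (by
      intro i
      unfold uniC'
      split_ifs with h
      · exact h0
      · exact fewExt_co fewExt_clusters)
  simp only [parts_uniC] at h1
  simp only [parts_uniC'] at h2
  have h3 : ({G : SimpleGraph (Fin n) | (Unipolar G ∨ Unipolar Gᶜ) ∧ ¬ P n G}.ncard : ℝ) ≤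
      {G : SimpleGraph (Fin n) | Unipolar G ∧ ¬ P n G}.ncard +
        {G : SimpleGraph (Fin n) | Unipolar Gᶜ ∧ ¬ P n G}.ncard := by
    have h4 : {G : SimpleGraph (Fin n) | (Unipolar G ∨ Unipolar Gᶜ) ∧ ¬ P n G} =
        {G : SimpleGraph (Fin n) | Unipolar G ∧ ¬ P n G} ∪
          {G : SimpleGraph (Fin n) | Unipolar Gᶜ ∧ ¬ P n G} := by
      ext G
      simp only [Set.mem_setOf_eq, Set.mem_union]
      tauto
    rw [h4]
    exact_mod_cast Set.ncard_union_le _ _
  have h5 : ({G : SimpleGraph (Fin n) | Unipolar G}.ncard : ℝ) ≤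
      {G : SimpleGraph (Fin n) | Unipolar G ∨ Unipolar Gᶜ}.ncard := by
    exact_mod_cast Set.ncard_le_ncard (fun G h => Or.inl h) (Set.toFinite _)
  have h6 : ({G : SimpleGraph (Fin n) | Unipolar Gᶜ}.ncard : ℝ) ≤
      {G : SimpleGraph (Fin n) | Unipolar G ∨ Unipolar Gᶜ}.ncard := by
    exact_mod_cast Set.ncard_le_ncard (fun G h => Or.inr h) (Set.toFinite _)
  have h7 : 0 < δ / 2 := by linarith
  nlinarith

theorem cliqueUnions (P : ∀ n : ℕ, SimpleGraph (Fin n) → Prop) (hP : Typ P) (r : ℕ)
    (hr : 2 ≤ r) (δ : ℝ) (hδ : 0 < δ) :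
    ∃ N : ℕ, ∀ n : ℕ, N ≤ n → ∀ k : Fin r → ℕ, (∀ i, 1 ≤ k i) →
      ({G : SimpleGraph (Fin n) | CliqueUnions k G ∧ ¬ P n G}.ncard : ℝ) ≤
        δ * {G : SimpleGraph (Fin n) | CliqueUnions k G}.ncard := by
  obtain ⟨N, hN⟩ := almost_all P hP _ subexp_succ r hr δ hδ
  refine ⟨N, fun n hn k hk => ?_⟩
  have h1 := hN n hn (fun i => FewCliques (k i)) (fun i => hereditary_few _)
    (fun i m => nonempty_few _ (hk i) m) (fun i => fewExt_few _)
  simp only [parts_few] at h1
  exact h1

end

end Pool.Agent.Q109.AC
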