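import Pool.Agent.Q109.AC.Trip

/-!
# Near-automorphisms of a random graph between two graphs
-/

set_option autoImplicit false

namespace Pool.Agent.Q109.AC

open Finset Pool.Agent.H234RC

/-- a large part of `S` which is disjoint from its image -/
theorem exists_free {α : Type} [DecidableEq α] (S : Finset α) (f : α → α)
    (hf : Set.InjOn f (S : Set α)) (hne : ∀ a ∈ S, f a ≠ a) :
    ∃ T ⊆ S, (∀ a ∈ T, f a ∉ T) ∧ S.card ≤ 3 * T.card := by
  obtain ⟨T, hT, hmax⟩ := Finset.exists_max_image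
    (S.powerset.filter (fun T => ∀ a ∈ T, f a ∉ T)) Finset.card ⟨∅, by simp⟩
  rw [mem_filter, mem_powerset] at hT
  refine ⟨T, hT.1, hT.2, ?_⟩
  have hcov : S ⊆ T ∪ (S.filter (fun a => f a ∈ T) ∪ T.image f) := by
    intro a ha
    by_contra hcon
    rw [mem_union, mem_union, not_or, not_or, mem_filter, mem_image] at hcon
    obtain ⟨h1, h2, h3⟩ := hcon
    have h4 : f a ∉ T := fun h => h2 ⟨ha, h⟩
    have h5 := hmax (insert a T) (by
      rw [mem_filter, mem_powerset]
      refine ⟨insert_subset ha hT.1, fun b hb => ?_⟩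
      rw [mem_insert] at hb ⊢
      rcases hb with hb | hb
      · rw [hb]
        exact not_or.2 ⟨hne a ha, h4⟩
      · exact not_or.2 ⟨fun e => h3 ⟨b, hb, e⟩, hT.2 b hb⟩)
    rw [card_insert_of_notMem h1] at h5
    omega
  have h1 : (S.filter (fun a => f a ∈ T)).card ≤ T.card := by
    apply card_le_card_of_injOn f
    · intro a ha
      exact (mem_filter.1 (mem_coe.1 ha)).2
    · intro a ha b hb h
      exact hf (mem_filter.1 (mem_coe.1 ha)).1 (mem_filter.1 (mem_coe.1 hb)).1 h
  have h2 : (T.image f).card ≤ T.card := card_image_le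
  have h3 := card_le_card hcov
  have h4 := card_union_le T (S.filter (fun a => f a ∈ T) ∪ T.image f)
  have h5 := card_union_le (S.filter (fun a => f a ∈ T)) (T.image f)
  omega

/-- the number of the subsets `A` of `U` which satisfy the equivalences for all elements of `S` -/
theorem count_event {α : Type} [DecidableEq α] (U : Finset α) (F0 : Set α)
    (hd : ∀ a ∈ U, a ∉ F0) (S : Finset α) (hS : S ⊆ U) (f : α → α)
    (hf : Set.InjOn f (S : Set α)) (hne : ∀ a ∈ S, f a ≠ a) (m : ℕ) (hm : 3 * m ≤ S.card)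
    (R : Finset α → Prop) [DecidablePred R] (hR : ∀ A, R A → ∀ a ∈ S,
      ((a ∈ F0 ∨ a ∈ A) ↔ (f a ∈ F0 ∨ f a ∈ A))) :
    ((U.powerset.filter R).card : ℝ) ≤ 2 ^ U.card * (1 / 2) ^ m := by
  obtain ⟨T, hTS, hT, hc⟩ := exists_free S f hf hne
  have hmT : m ≤ T.card := by omega
  have hTU : T ⊆ U := hTS.trans hS
  have h1 : (U.powerset.filter R).card ≤ (U \ T).powerset.card := by
    apply card_le_card_of_injOn (fun A => A \ T)
    · intro A hA
      have hA' := mem_filter.1 (mem_coe.1 hA)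
      rw [mem_coe, mem_powerset]
      exact sdiff_subset_sdiff (mem_powerset.1 hA'.1) (le_refl T)
    · intro A hA A' hA' h
      have hA1 := mem_filter.1 (mem_coe.1 hA)
      have hA2 := mem_filter.1 (mem_coe.1 hA')
      have h' : A \ T = A' \ T := h
      have hout : ∀ e, e ∉ T → (e ∈ A ↔ e ∈ A') := by
        intro e he
        have h3 : e ∈ A \ T ↔ e ∈ A' \ T := by rw [h']
        rw [mem_sdiff, mem_sdiff] at h3
        tauto
      ext e
      by_cases he : e ∈ T
      · have h3 := hR A hA1.2 e (hTS he)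
        have h4 := hR A' hA2.2 e (hTS he)
        have h5 := hout (f e) (hT e he)
        have h6 := hd e (hTU he)
        tauto
      · exact hout e he
  rw [card_powerset, card_sdiff_of_subset hTU] at h1
  have h2 : T.card ≤ U.card := card_le_card hTU
  have h3 : ((2 : ℝ) ^ (U.card - T.card)) = 2 ^ U.card * (1 / 2) ^ T.card := by
    rw [one_div, inv_pow, ← div_eq_mul_inv, eq_div_iff (by positivity), ← pow_add,
      Nat.sub_add_cancel h2]
  have h4 : ((1 : ℝ) / 2) ^ T.card ≤ (1 / 2) ^ m :=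
    pow_le_pow_of_le_one (by norm_num) (by norm_num) hmT
  calc ((U.powerset.filter R).card : ℝ) ≤ ((2 ^ (U.card - T.card) : ℕ) : ℝ) := by exact_mod_cast h1
    _ = 2 ^ U.card * (1 / 2) ^ T.card := by
        push_cast
        exact h3
    _ ≤ _ := mul_le_mul_of_nonneg_left h4 (by positivity)

section

variable {V : Type} [Fintype V]

open Classical in
/-- the edges of `B` which are not edges of `F` -/
noncomputable def unc (F B : SimpleGraph V) : Finset (Sym2 V) :=
  univ.filter (fun e => e ∈ B.edgeSet ∧ e ∉ F.edgeSet)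

open Classical in
/-- the uncertain edges which are edges of `G` -/
noncomputable def on (F B G : SimpleGraph V) : Finset (Sym2 V) :=
  (unc F B).filter (fun e => e ∈ G.edgeSet)

theorem mem_on {F B G : SimpleGraph V} (h1 : F ≤ G) (h2 : G ≤ B) (e : Sym2 V) :
    e ∈ G.edgeSet ↔ (e ∈ F.edgeSet ∨ e ∈ on F B G) := by
  classical
  have h3 : F.edgeSet ⊆ G.edgeSet := SimpleGraph.edgeSet_subset_edgeSet.2 h1
  have h4 : G.edgeSet ⊆ B.edgeSet := SimpleGraph.edgeSet_subset_edgeSet.2 h2
  unfold on unc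
  rw [mem_filter, mem_filter]
  constructor
  · intro h
    by_cases he : e ∈ F.edgeSet
    · exact Or.inl he
    · exact Or.inr ⟨⟨mem_univ _, h4 h, he⟩, h⟩
  · rintro (h | h)
    · exact h3 h
    · exact h.2

/-- the graphs between `F` and `B` correspond to sets of uncertain edges -/
theorem ncard_le_filter (F B : SimpleGraph V) (Q : SimpleGraph V → Prop)
    (R : Finset (Sym2 V) → Prop) [DecidablePred R]
    (h : ∀ G, F ≤ G → G ≤ B → Q G → R (on F B G)) :
    {G : SimpleGraph V | F ≤ G ∧ G ≤ B ∧ Q G}.ncard ≤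
      ((unc F B).powerset.filter R).card := by
  classical
  rw [← Set.ncard_coe_finset]
  apply Set.ncard_le_ncard_of_injOn (on F B)
  · rintro G ⟨h1, h2, h3⟩
    rw [mem_coe, mem_filter, mem_powerset]
    exact ⟨filter_subset _ _, h G h1 h2 h3⟩
  · rintro G ⟨h1, h2, -⟩ G' ⟨h1', h2', -⟩ he
    have h3 : G.edgeSet = G'.edgeSet := by
      ext e
      rw [mem_on h1 h2, mem_on h1' h2', he]
    exact SimpleGraph.edgeSet_inj.1 h3

theorem two_pow_le (F B : SimpleGraph V) (hFB : F ≤ B) :
    2 ^ (unc F B).card ≤ {G : SimpleGraph V | F ≤ G ∧ G ≤ B}.ncard := by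
  classical
  rw [← card_powerset, ← Set.ncard_coe_finset]
  apply Set.ncard_le_ncard_of_injOn
    (fun A : Finset (Sym2 V) => F ⊔ SimpleGraph.fromEdgeSet (A : Set (Sym2 V)))
  · intro A hA
    rw [mem_coe, mem_powerset] at hA
    refine ⟨le_sup_left, sup_le hFB ?_⟩
    intro x y hxy
    rw [SimpleGraph.fromEdgeSet_adj] at hxy
    have h1 := hA (mem_coe.1 hxy.1)
    unfold unc at h1
    exact (mem_filter.1 h1).2.1
  · intro A hA A' hA' he
    rw [mem_coe, mem_powerset] at hA hA'
    have key : ∀ (C : Finset (Sym2 V)), C ⊆ unc F B → ∀ e, e ∈ C ↔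
        (e ∈ (F ⊔ SimpleGraph.fromEdgeSet (C : Set (Sym2 V))).edgeSet ∧ e ∉ F.edgeSet) := by
      intro C hC e
      induction e with
      | _ x y =>
        rw [SimpleGraph.mem_edgeSet, SimpleGraph.mem_edgeSet, SimpleGraph.sup_adj,
          SimpleGraph.fromEdgeSet_adj]
        constructor
        · intro h
          have h1 := hC h
          unfold unc at h1
          have h2 := (mem_filter.1 h1).2
          exact ⟨Or.inr ⟨h, (SimpleGraph.mem_edgeSet _ |>.1 h2.1).ne⟩, h2.2⟩
        · rintro ⟨h1 | h1, h2⟩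
          · exact absurd h1 h2
          · exact mem_coe.1 h1.1
    ext e
    rw [key A hA, key A' hA']
    have he' : F ⊔ SimpleGraph.fromEdgeSet (A : Set (Sym2 V)) =
      F ⊔ SimpleGraph.fromEdgeSet (A' : Set (Sym2 V)) := he
    rw [he']

/-- the map `g` preserves the adjacency of all pairs that avoid `a` and `b` -/
def Ev (G : SimpleGraph V) (g : V → V) (a b : V) : Prop :=
  ∀ x y : V, x ≠ a → x ≠ b → y ≠ a → y ≠ b → (G.Adj (g x) (g y) ↔ G.Adj x y)

open Classical in
theorem count_ev (F B : SimpleGraph V) (g : V → V) (a b : V) (ha : g a = a) (hb : g b = b)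
    (hg : ∀ x y, x ≠ a → x ≠ b → y ≠ a → y ≠ b → g x = g y → x = y) (m : ℕ)
    (hm : ∀ v, 6 * m + 3 ≤ (univ.filter (fun z => s(v, z) ∈ unc F B)).card) :
    ({G : SimpleGraph V | F ≤ G ∧ G ≤ B ∧ Ev G g a b}.ncard : ℝ) ≤
      2 ^ (unc F B).card * (1 / 2) ^ (m * (univ.filter (fun x => g x ≠ x)).card) := by
  set K := univ.filter (fun x => g x ≠ x) with hK
  have hKa : ∀ x ∈ K, x ≠ a ∧ x ≠ b := by
    intro x hx
    have hx' := (mem_filter.1 hx).2
    exact ⟨fun e => hx' (by rw [e, ha]), fun e => hx' (by rw [e, hb])⟩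
  set S := (unc F B).filter (fun e => ∃ x z, e = s(x, z) ∧ x ∈ K ∧ z ≠ a ∧ z ≠ b ∧
    ¬ (g x = z ∧ g z = x)) with hS
  have hmap : ∀ x z : V, Sym2.map g s(x, z) = s(g x, g z) := fun x z => rfl
  have hinj : Set.InjOn (Sym2.map g) (S : Set (Sym2 V)) := by
    intro e he e' he' h
    obtain ⟨-, x, z, rfl, hx, hz1, hz2, -⟩ := mem_filter.1 (mem_coe.1 he)
    obtain ⟨-, x', z', rfl, hx', hz1', hz2', -⟩ := mem_filter.1 (mem_coe.1 he')
    rw [hmap, hmap, Sym2.eq_iff] at h
    have k1 := hKa x hx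
    have k2 := hKa x' hx'
    rcases h with ⟨h1, h2⟩ | ⟨h1, h2⟩
    · rw [hg _ _ k1.1 k1.2 k2.1 k2.2 h1, hg _ _ hz1 hz2 hz1' hz2' h2]
    · rw [hg _ _ k1.1 k1.2 hz1' hz2' h1, hg _ _ hz1 hz2 k2.1 k2.2 h2, Sym2.eq_swap]
  have hne : ∀ e ∈ S, Sym2.map g e ≠ e := by
    intro e he h
    obtain ⟨-, x, z, rfl, hx, -, -, hxz⟩ := mem_filter.1 he
    rw [hmap, Sym2.eq_iff] at h
    rcases h with ⟨h1, -⟩ | h
    · exact (mem_filter.1 hx).2 h1
    · exact hxz h
  have hcard : 3 * (m * K.card) ≤ S.card := by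
    have h1 : ∀ x ∈ K, 6 * m ≤ (univ.filter (fun z => s(x, z) ∈ S)).card := by
      intro x hx
      have h2 : (univ.filter (fun z => s(x, z) ∈ unc F B)) \ {a, b, g x} ⊆
          univ.filter (fun z => s(x, z) ∈ S) := by
        intro z hz
        rw [mem_sdiff, mem_filter, mem_insert, mem_insert, mem_singleton] at hz
        push Not at hz
        rw [mem_filter, hS, mem_filter]
        exact ⟨mem_univ _, hz.1.2, x, z, rfl, hx, hz.2.1, hz.2.2.1, fun h => hz.2.2.2 h.1.symm⟩
      have h3 := card_le_card h2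
      have h4 := le_card_sdiff ({a, b, g x} : Finset V)
        (univ.filter (fun z => s(x, z) ∈ unc F B))
      have h5 : ({a, b, g x} : Finset V).card ≤ 3 := card_le_three
      have h6 := hm x
      omega
    have h7 : K.card * (6 * m) ≤ (K.sigma (fun x => univ.filter (fun z => s(x, z) ∈ S))).card := by
      rw [card_sigma, ← smul_eq_mul]
      exact card_nsmul_le_sum _ _ _ h1
    have h8 : (K.sigma (fun x => univ.filter (fun z => s(x, z) ∈ S))).card ≤ 2 * S.card := by
      apply card_le_mul_card_image_of_maps_to (f := fun p : (_ : V) × V => s(p.1, p.2))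
      · rintro ⟨x, z⟩ hp
        exact (mem_filter.1 (mem_sigma.1 hp).2).2
      · intro e he
        induction e with
        | _ x z =>
          have h9 : (K.sigma (fun x => univ.filter (fun z => s(x, z) ∈ S))).filter
              (fun p : (_ : V) × V => s(p.1, p.2) = s(x, z)) ⊆ {⟨x, z⟩, ⟨z, x⟩} := by
            rintro ⟨x', z'⟩ hp
            rw [mem_filter] at hp
            have h10 := hp.2
            rw [Sym2.eq_iff] at h10
            rw [mem_insert, mem_singleton]
            rcases h10 with ⟨h11, h12⟩ | ⟨h11, h12⟩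
            · left
              simp only at h11 h12
              rw [h11, h12]
            · right
              simp only at h11 h12
              rw [h11, h12]
          exact (card_le_card h9).trans card_le_two
    have h13 : K.card * (6 * m) = 2 * (3 * (m * K.card)) := by ring
    omega
  have hd : ∀ e ∈ unc F B, e ∉ F.edgeSet := by
    intro e he
    unfold unc at he
    exact (mem_filter.1 he).2.2
  have key := count_event (unc F B) F.edgeSet hd S (filter_subset _ _) (Sym2.map g) hinj hne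
    (m * K.card) hcard (fun A => ∀ e ∈ S,
    ((e ∈ F.edgeSet ∨ e ∈ A) ↔ (Sym2.map g e ∈ F.edgeSet ∨ Sym2.map g e ∈ A))) (fun A h => h)
  refine le_trans ?_ key
  have h14 := ncard_le_filter F B (fun G => Ev G g a b) (fun A => ∀ e ∈ S,
    ((e ∈ F.edgeSet ∨ e ∈ A) ↔ (Sym2.map g e ∈ F.edgeSet ∨ Sym2.map g e ∈ A))) (by
      intro G h1 h2 h3 e he
      obtain ⟨-, x, z, rfl, hx, hz1, hz2, -⟩ := mem_filter.1 he
      rw [← mem_on h1 h2, ← mem_on h1 h2, hmap, SimpleGraph.mem_edgeSet, SimpleGraph.mem_edgeSet]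
      exact (h3 x z (hKa x hx).1 (hKa x hx).2 hz1 hz2).symm)
  exact_mod_cast h14

end

end Pool.Agent.Q109.AC
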