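import Pool.Agent.H234RC.W12a

/-!
# Graphs without near-automorphisms are determined by any three cards
-/

set_option autoImplicit false

namespace Pool.Agent.Q109.AC

open Finset Pool.Agent.H234RC

/-- Any three cards of `T(G)` determine `T(G)`. -/
def AnyThree {V : Type} (G : SimpleGraph V) : Prop :=
  ∀ a b c : V, a ≠ b → a ≠ c → b ≠ c →
    ∀ (W : Type) [Fintype W] (H : SimpleGraph W) (a' b' c' : W), a' ≠ b' → a' ≠ c' → b' ≠ c' →
      Nonempty (TCard G a ≃o TCard H a') → Nonempty (TCard G b ≃o TCard H b') →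
      Nonempty (TCard G c ≃o TCard H c') → Nonempty (TLat G ≃o TLat H)

theorem anyThree {V : Type} [Fintype V] (G : SimpleGraph V) (hR : ∀ x, Rn G x) : AnyThree G := by
  intro v1 v2 v3 h12 h13 h23 W _ H w1 w2 w3 g12 g13 g23 c1 c2 c3
  obtain ⟨π1, e1, a1⟩ := card_ext G H v1 w1 c1
  obtain ⟨π2, e2, a2⟩ := card_ext G H v2 w2 c2
  obtain ⟨π3, e3, a3⟩ := card_ext G H v3 w3 c3
  have f12 : π1 v2 = w2 := three_fix h12 e1 e2 a1 a2 (hR _)
  have f13 : π1 v3 = w3 := three_fix h13 e1 e3 a1 a3 (hR _)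
  have f21 : π2 v1 = w1 := three_fix h12.symm e2 e1 a2 a1 (hR _)
  have f31 : π3 v1 = w1 := three_fix h13.symm e3 e1 a3 a1 (hR _)
  have f32 : π3 v2 = w2 := three_fix h23.symm e3 e2 a3 a2 (hR _)
  have p12 : π1.symm w2 = v2 := (Equiv.symm_apply_eq _).2 f12.symm
  have na := trans_na e1 e2 a1 a2
  rw [p12] at na
  have ag12 : ∀ x, π1 x = π2 x := by
    intro x
    by_cases x1 : x = v1
    · rw [x1, e1, f21]
    · by_cases x2 : x = v2
      · rw [x2, f12, e2]
      · have h : π2.symm (π1 x) = x := hR x _ na x1 x2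
        exact (Equiv.symm_apply_eq _).1 h
  have key : ∀ x, x ≠ v1 → (H.Adj (π1 v1) (π1 x) ↔ G.Adj v1 x) := by
    intro x hx1
    by_cases hx2 : x = v2
    · rw [hx2, e1, f12, ← f31, ← f32]
      exact a3 _ _ h13 h23
    · rw [ag12 x, ag12 v1]
      exact a2 _ _ h12 hx2
  apply whole_iso G H π1
  intro x y
  by_cases hx : x = v1
  · by_cases hy : y = v1
    · rw [hx, hy]; simp
    · rw [hx]; exact key y hy
  · by_cases hy : y = v1
    · rw [hy, H.adj_comm, G.adj_comm]; exact key x hx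
    · exact a1 x y hx hy

theorem isNA_compl {V : Type} {G : SimpleGraph V} {φ : NAut V} (h : IsNA Gᶜ φ) : IsNA G φ := by
  intro x y hx1 hx2 hy1 hy2
  by_cases hxy : x = y
  · rw [hxy]; simp
  · have h1 := h x y hx1 hx2 hy1 hy2
    rw [SimpleGraph.compl_adj, SimpleGraph.compl_adj] at h1
    have h2 : φ.1 x ≠ φ.1 y := fun e => hxy (φ.1.injective e)
    tauto

theorem rn_compl {V : Type} {G : SimpleGraph V} {x : V} (h : Rn G x) : Rn Gᶜ x :=
  fun φ hφ h1 h2 => h φ (isNA_compl hφ) h1 h2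

theorem reconstructible {V : Type} [Fintype V] (G : SimpleGraph V) (h3 : 3 ≤ Fintype.card V)
    (hG : AnyThree G) : Reconstructible G := by
  obtain ⟨a, b, c, hab, hac, hbc⟩ := Fintype.two_lt_card_iff.1 (by omega : 2 < Fintype.card V)
  rintro W _ H ⟨f, hf⟩
  exact hG a b c hab hac hbc W H (f a) (f b) (f c) (f.injective.ne hab) (f.injective.ne hac)
    (f.injective.ne hbc) (hf a) (hf b) (hf c)

/-- `T(G)` is reconstructible, and any three cards determine it. -/
def Strong {V : Type} (G : SimpleGraph V) : Prop := Reconstructible G ∧ AnyThree G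

theorem both {V : Type} [Fintype V] (G : SimpleGraph V) (h3 : 3 ≤ Fintype.card V)
    (hR : ∀ x, Rn G x) : Strong G ∧ Strong Gᶜ := by
  have h1 := anyThree G hR
  have h2 := anyThree Gᶜ (fun x => rn_compl (hR x))
  exact ⟨⟨reconstructible G h3 h1, h1⟩, ⟨reconstructible Gᶜ h3 h2, h2⟩⟩

end Pool.Agent.Q109.AC
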