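import Pool.Agent.Q109.AC.Count

/-!
# Almost all graphs between two graphs are determined by any three cards
-/

set_option autoImplicit false

namespace Pool.Agent.Q109.AC

open Finset Filter Pool.Agent.H234RC

/-- The property `P` holds for almost all graphs between two graphs `F ≤ B` which differ in many
edges at every vertex. -/
def Typ (P : ∀ n : ℕ, SimpleGraph (Fin n) → Prop) : Prop :=
  ∀ c ε : ℝ, 0 < c → 0 < ε → ∃ N : ℕ, ∀ n : ℕ, N ≤ n → ∀ F B : SimpleGraph (Fin n),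
    F ≤ B → (∀ v, ((F.neighborSet v).ncard : ℝ) + c * n ≤ (B.neighborSet v).ncard) →
    ({G : SimpleGraph (Fin n) | F ≤ G ∧ G ≤ B ∧ ¬ P n G}.ncard : ℝ) ≤
      ε * {G : SimpleGraph (Fin n) | F ≤ G ∧ G ≤ B}.ncard

section

variable {V : Type} [Fintype V]

open Classical in
/-- the weight of a map -/
noncomputable def wt (w : ℝ) (g : V → V) : ℝ := ∏ x, (if g x = x then 1 else w)

open Classical in
theorem wt_eq (w : ℝ) (g : V → V) : wt w g = w ^ (univ.filter (fun x => g x ≠ x)).card := by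
  unfold wt
  rw [Finset.prod_ite]
  rw [prod_const_one, one_mul, prod_const]

open Classical in
theorem sum_wt (w : ℝ) (hw : 0 ≤ w) :
    ∑ g : V → V, wt w g ≤ (1 + Fintype.card V * w) ^ Fintype.card V := by
  have h1 : ∑ g : V → V, wt w g = ∏ x : V, ∑ y : V, (if y = x then (1 : ℝ) else w) := by
    unfold wt
    rw [Finset.prod_univ_sum, Fintype.piFinset_univ]
  have h2 : ∀ x : V, ∑ y : V, (if y = x then (1 : ℝ) else w) ≤ 1 + Fintype.card V * w := by
    intro x
    have h3 : ∀ y : V, (if y = x then (1 : ℝ) else w) ≤ (if y = x then 1 else 0) + w := by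
      intro y
      split_ifs <;> linarith
    refine (Finset.sum_le_sum (fun y _ => h3 y)).trans ?_
    rw [Finset.sum_add_distrib, Finset.sum_ite_eq' univ x, if_pos (mem_univ _), Finset.sum_const,
      nsmul_eq_mul, Finset.card_univ]
  rw [h1]
  refine (Finset.prod_le_prod (fun x _ => Finset.sum_nonneg (fun y _ => ?_))
    (fun x _ => h2 x)).trans ?_
  · split_ifs <;> linarith
  · rw [prod_const, Finset.card_univ]

open Classical in
theorem count_bad (F B : SimpleGraph V) (m : ℕ)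
    (hm : ∀ v, 6 * m + 3 ≤ (univ.filter (fun z => s(v, z) ∈ unc F B)).card) :
    ({G : SimpleGraph V | F ≤ G ∧ G ≤ B ∧ ∃ x, ¬ Rn G x}.ncard : ℝ) ≤
      2 ^ (unc F B).card * ((Fintype.card V : ℝ) ^ 2 *
        ((1 + Fintype.card V * (1 / 2) ^ m) ^ Fintype.card V - 1)) := by
  set w : ℝ := (1 / 2) ^ m with hw
  have hw0 : 0 ≤ w := by positivity
  set I : Finset ((V → V) × V × V) := univ.filter (fun p => p.1 ≠ id ∧ p.1 p.2.1 = p.2.1 ∧
    p.1 p.2.2 = p.2.2 ∧ ∀ x y, x ≠ p.2.1 → x ≠ p.2.2 → y ≠ p.2.1 → y ≠ p.2.2 →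
      p.1 x = p.1 y → x = y) with hI
  have hsub : {G : SimpleGraph V | F ≤ G ∧ G ≤ B ∧ ∃ x, ¬ Rn G x} ⊆
      ⋃ p ∈ I, {G : SimpleGraph V | F ≤ G ∧ G ≤ B ∧ Ev G p.1 p.2.1 p.2.2} := by
    rintro G ⟨h1, h2, x, hx⟩
    unfold Rn at hx
    push Not at hx
    obtain ⟨⟨σ, a, b⟩, hφ, hxa, hxb, hσx⟩ := hx
    simp only at hxa hxb hσx
    set g : V → V := fun y => if y = a ∨ y = b then y else σ y with hg
    have hga : g a = a := by simp [hg]
    have hgb : g b = b := by simp [hg]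
    have hgy : ∀ y, y ≠ a → y ≠ b → g y = σ y := by
      intro y hy1 hy2
      simp [hg, hy1, hy2]
    rw [Set.mem_iUnion₂]
    refine ⟨(g, a, b), ?_, h1, h2, ?_⟩
    · rw [hI, mem_filter]
      refine ⟨mem_univ _, ?_, hga, hgb, ?_⟩
      · intro he
        apply hσx
        rw [← hgy x hxa hxb]
        have : g = id := he
        rw [this]
        rfl
      · intro y z hy1 hy2 hz1 hz2 hyz
        have hyz' : g y = g z := hyz
        rw [hgy y hy1 hy2, hgy z hz1 hz2] at hyz'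
        exact σ.injective hyz'
    · intro y z hy1 hy2 hz1 hz2
      show G.Adj (g y) (g z) ↔ G.Adj y z
      rw [hgy y hy1 hy2, hgy z hz1 hz2]
      exact hφ y z hy1 hy2 hz1 hz2
  have h1 : ({G : SimpleGraph V | F ≤ G ∧ G ≤ B ∧ ∃ x, ¬ Rn G x}.ncard : ℝ) ≤
      ∑ p ∈ I, (2 : ℝ) ^ (unc F B).card * wt w p.1 := by
    have h2 := (Set.ncard_le_ncard hsub (Set.toFinite _)).trans (Finset.set_ncard_biUnion_le _ _)
    calc ({G : SimpleGraph V | F ≤ G ∧ G ≤ B ∧ ∃ x, ¬ Rn G x}.ncard : ℝ)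
        ≤ ((∑ p ∈ I, {G : SimpleGraph V | F ≤ G ∧ G ≤ B ∧ Ev G p.1 p.2.1 p.2.2}.ncard : ℕ) : ℝ) := by
          exact_mod_cast h2
      _ = ∑ p ∈ I, ({G : SimpleGraph V | F ≤ G ∧ G ≤ B ∧ Ev G p.1 p.2.1 p.2.2}.ncard : ℝ) := by
          push_cast
          rfl
      _ ≤ _ := by
          apply Finset.sum_le_sum
          intro p hp
          rw [hI, mem_filter] at hp
          have h3 := count_ev F B p.1 p.2.1 p.2.2 hp.2.2.1 hp.2.2.2.1 hp.2.2.2.2 m hm
          rw [wt_eq, hw, ← pow_mul]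
          exact h3
  have hwt0 : ∀ g : V → V, 0 ≤ wt w g := by
    intro g
    rw [wt_eq]
    positivity
  have h4 : ∑ p ∈ I, (2 : ℝ) ^ (unc F B).card * wt w p.1 ≤
      ∑ p : (V → V) × V × V, (if p.1 ≠ id then (2 : ℝ) ^ (unc F B).card * wt w p.1 else 0) := by
    rw [← Finset.sum_filter]
    apply Finset.sum_le_sum_of_subset_of_nonneg
    · intro p hp
      rw [hI, mem_filter] at hp
      rw [mem_filter]
      exact ⟨mem_univ _, hp.2.1⟩
    · intro p _ _
      exact mul_nonneg (by positivity) (hwt0 _)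
  have h5 : ∑ p : (V → V) × V × V, (if p.1 ≠ id then (2 : ℝ) ^ (unc F B).card * wt w p.1 else 0) =
      2 ^ (unc F B).card * ((Fintype.card V : ℝ) ^ 2 * (∑ g : V → V, wt w g - 1)) := by
    rw [Fintype.sum_prod_type]
    have h6 : ∀ g : V → V, ∑ q : V × V,
        (if (g, q).1 ≠ id then (2 : ℝ) ^ (unc F B).card * wt w (g, q).1 else 0) =
        (Fintype.card V : ℝ) ^ 2 * (2 ^ (unc F B).card * (if g ≠ id then wt w g else 0)) := by
      intro g
      simp only
      rw [Finset.sum_const, nsmul_eq_mul, Finset.card_univ, Fintype.card_prod]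
      push_cast
      split_ifs <;> ring
    rw [Finset.sum_congr rfl (fun g _ => h6 g), ← Finset.mul_sum, ← Finset.mul_sum]
    have h7 : ∑ g : V → V, (if g ≠ id then wt w g else 0) = ∑ g : V → V, wt w g - 1 := by
      have h8 : ∀ g : V → V, (if g ≠ id then wt w g else 0) = wt w g - (if g = id then 1 else 0) := by
        intro g
        by_cases hg : g = id
        · rw [if_neg (by simpa using hg), if_pos hg, hg, wt_eq]
          simp
        · rw [if_pos hg, if_neg hg, sub_zero]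
      rw [Finset.sum_congr rfl (fun g _ => h8 g), Finset.sum_sub_distrib,
        Finset.sum_ite_eq' univ id, if_pos (mem_univ _)]
    rw [h7]
    ring
  refine h1.trans (h4.trans (h5.le.trans ?_))
  have h9 := sum_wt (V := V) w hw0
  have h10 : (0 : ℝ) ≤ (Fintype.card V : ℝ) ^ 2 := by positivity
  apply mul_le_mul_of_nonneg_left _ (by positivity)
  apply mul_le_mul_of_nonneg_left _ h10
  linarith

end

theorem pow_sub_one_le (n : ℕ) (x : ℝ) (hx : 0 ≤ x) (h : n * x ≤ 1) :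
    (1 + x) ^ n - 1 ≤ 2 * (n * x) := by
  have h1 : (1 + x) ^ n ≤ Real.exp (n * x) := by
    rw [Real.exp_nat_mul]
    apply pow_le_pow_left₀ (by linarith)
    have := Real.add_one_le_exp x
    linarith
  have h0 : 0 ≤ (n : ℝ) * x := by positivity
  have h2 := Real.abs_exp_sub_one_sub_id_le (x := n * x) (by rw [abs_of_nonneg h0]; exact h)
  have h3 := (abs_le.1 h2).2
  nlinarith

theorem typical : Typ (fun _ G => Strong G ∧ Strong Gᶜ) := by
  classical
  intro c ε hc hε
  set r : ℝ := (1 / 2) ^ (c / 12) with hr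
  have hr0 : 0 < r := by positivity
  have hr1 : r < 1 := by
    rw [hr]
    exact Real.rpow_lt_one (by norm_num) (by norm_num) (by positivity)
  have ht4 := tendsto_pow_const_mul_const_pow_of_abs_lt_one 4 (r := r)
    (by rw [abs_of_nonneg hr0.le]; exact hr1)
  have ht2 := tendsto_pow_const_mul_const_pow_of_abs_lt_one 2 (r := r)
    (by rw [abs_of_nonneg hr0.le]; exact hr1)
  have e4 := ht4.eventually (gt_mem_nhds (show (0 : ℝ) < ε / 4 by positivity))
  have e2 := ht2.eventually (gt_mem_nhds (show (0 : ℝ) < 1 / 2 by norm_num))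
  have e1 := (tendsto_natCast_atTop_atTop (R := ℝ)).eventually (eventually_ge_atTop (6 / c))
  obtain ⟨N, hN⟩ := eventually_atTop.1 (e4.and (e2.and e1))
  refine ⟨max N 3, fun n hn F B hFB hdeg => ?_⟩
  have hn3 : 3 ≤ n := (le_max_right _ _).trans hn
  obtain ⟨h4, h2, h1⟩ := hN n ((le_max_left _ _).trans hn)
  have hcn : 6 ≤ c * n := by
    rw [div_le_iff₀ hc] at h1
    linarith
  set m := ⌊c * n / 12⌋₊ with hm
  have hm1 : (m : ℝ) ≤ c * n / 12 := Nat.floor_le (by positivity)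
  have hm2 : c * n / 12 < m + 1 := Nat.lt_floor_add_one _
  have hdeg' : ∀ v, 6 * m + 3 ≤ (univ.filter (fun z => s(v, z) ∈ unc F B)).card := by
    intro v
    have h5 : (B.neighborSet v).ncard ≤ (F.neighborSet v).ncard +
        (univ.filter (fun z => s(v, z) ∈ unc F B)).card := by
      rw [← Set.ncard_coe_finset (univ.filter (fun z => s(v, z) ∈ unc F B))]
      refine le_trans (Set.ncard_le_ncard ?_ (Set.toFinite _)) (Set.ncard_union_le _ _)
      intro z hz
      by_cases hF : F.Adj v z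
      · exact Or.inl hF
      · right
        rw [mem_coe, mem_filter]
        refine ⟨mem_univ _, ?_⟩
        unfold unc
        rw [mem_filter]
        exact ⟨mem_univ _, hz, hF⟩
    have h6 := hdeg v
    have h7 : ((B.neighborSet v).ncard : ℝ) ≤ (F.neighborSet v).ncard +
        ((univ.filter (fun z => s(v, z) ∈ unc F B)).card : ℝ) := by
      exact_mod_cast h5
    have h8 : ((6 * m + 3 : ℕ) : ℝ) ≤
        ((univ.filter (fun z => s(v, z) ∈ unc F B)).card : ℝ) := by
      push_cast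
      linarith
    exact_mod_cast h8
  have hbad := count_bad F B m (fun v => by convert hdeg' v)
  rw [Fintype.card_fin] at hbad
  have hw : ((1 : ℝ) / 2) ^ m ≤ 2 * r ^ n := by
    have h5 : r ^ n = (1 / 2 : ℝ) ^ (c * n / 12) := by
      rw [hr, ← Real.rpow_natCast, ← Real.rpow_mul (by norm_num)]
      congr 1
      ring
    have h6 : ((1 : ℝ) / 2) ^ ((m : ℝ) + 1) ≤ (1 / 2) ^ (c * n / 12) :=
      Real.rpow_le_rpow_of_exponent_ge (by norm_num) (by norm_num) hm2.le
    rw [Real.rpow_add (by norm_num), Real.rpow_natCast, Real.rpow_one] at h6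
    rw [h5]
    linarith
  have hn0 : (0 : ℝ) ≤ n := Nat.cast_nonneg _
  have hrn : 0 < r ^ n := by positivity
  have hw0 : (0 : ℝ) ≤ (1 / 2) ^ m := by positivity
  have h9 : (n : ℝ) * (n * (1 / 2) ^ m) ≤ 1 := by
    have h10 : (n : ℝ) * (n * (1 / 2) ^ m) ≤ n * (n * (2 * r ^ n)) := by gcongr
    have h11 : (n : ℝ) * (n * (2 * r ^ n)) = 2 * ((n : ℝ) ^ 2 * r ^ n) := by ring
    linarith
  have h12 := pow_sub_one_le n (n * (1 / 2) ^ m) (by positivity) h9
  have h13 : (n : ℝ) ^ 2 * ((1 + n * (1 / 2) ^ m) ^ n - 1) ≤ ε := by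
    have h14 : (n : ℝ) ^ 2 * ((1 + n * (1 / 2) ^ m) ^ n - 1) ≤
        (n : ℝ) ^ 2 * (2 * (n * (n * (2 * r ^ n)))) := by
      apply mul_le_mul_of_nonneg_left _ (by positivity)
      refine h12.trans ?_
      gcongr
    have h15 : (n : ℝ) ^ 2 * (2 * (n * (n * (2 * r ^ n)))) = 4 * ((n : ℝ) ^ 4 * r ^ n) := by ring
    linarith
  have h16 : {G : SimpleGraph (Fin n) | F ≤ G ∧ G ≤ B ∧ ¬ (Strong G ∧ Strong Gᶜ)}.ncard ≤
      {G : SimpleGraph (Fin n) | F ≤ G ∧ G ≤ B ∧ ∃ x, ¬ Rn G x}.ncard := by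
    apply Set.ncard_le_ncard _ (Set.toFinite _)
    rintro G ⟨g1, g2, g3⟩
    refine ⟨g1, g2, ?_⟩
    by_contra hcon
    push Not at hcon
    exact g3 (both G (by rw [Fintype.card_fin]; exact hn3) hcon)
  have h17 : ((2 : ℝ) ^ (unc F B).card) ≤ {G : SimpleGraph (Fin n) | F ≤ G ∧ G ≤ B}.ncard := by
    exact_mod_cast two_pow_le F B hFB
  calc ({G : SimpleGraph (Fin n) | F ≤ G ∧ G ≤ B ∧ ¬ (Strong G ∧ Strong Gᶜ)}.ncard : ℝ)
      ≤ {G : SimpleGraph (Fin n) | F ≤ G ∧ G ≤ B ∧ ∃ x, ¬ Rn G x}.ncard := by exact_mod_cast h16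
    _ ≤ _ := hbad
    _ ≤ 2 ^ (unc F B).card * ε := mul_le_mul_of_nonneg_left h13 (by positivity)
    _ ≤ ε * {G : SimpleGraph (Fin n) | F ≤ G ∧ G ≤ B}.ncard := by
        rw [mul_comm]
        exact mul_le_mul_of_nonneg_left h17 hε.le

end Pool.Agent.Q109.AC
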